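import Pool.Agent.H91.Bratteli

set_option autoImplicit false

open MeasureTheory H91.Bratteli in
theorem Pool.Agent.Results.MP_17dcfb_an.Q2No.result :
    ∀ μ : Measure (Path tri), IsFiniteMeasure μ → ¬ TailInv tri μ :=
  main.2
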